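import Pool.Agent.Lib.MP_788af2_nt.G2.All

/-!
Among the quadratic twists `y ^ 2 + x y = x ^ 3 + (a + D) x ^ 2 + b`, `D` a polynomial, of a
non-isotrivial ordinary curve over `k(t)` in characteristic two, those of rank at least two have
density zero, provided that `a` is a polynomial when `b` is one.
-/

namespace Pool.Agent.Results.MP_788af2_nt.GoldfeldCharTwo

open Polynomial Filter Topology

theorem result (k : Type) [Field k] [Fintype k] [CharP k 2] [DecidableEq (RatFunc k)]
    (a b : RatFunc k) (hb : ∀ c : k, b ≠ RatFunc.C c)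
    (hab : (∃ g : k[X], b = algebraMap k[X] (RatFunc k) g) →
      ∃ g : k[X], a = algebraMap k[X] (RatFunc k) g) :
    Tendsto (fun e : ℕ => (Set.ncard {D : k[X] | D.natDegree ≤ e ∧ 2 ≤ Module.rank ℤ
      (⟨1, a + algebraMap k[X] (RatFunc k) D, 0, 0, b⟩ : WeierstrassCurve (RatFunc k)).toAffine.Point} : ℝ) /
        Set.ncard {D : k[X] | D.natDegree ≤ e}) atTop (𝓝 0) :=
  Pool.Agent.Lib.MP_788af2_nt.G2.main_all a b hb hab

end Pool.Agent.Results.MP_788af2_nt.GoldfeldCharTwo
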