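import Pool.Agent.Lib.MP_788af2_nt.FF.Mono

/-!
At least one sixth of all elliptic curves over `k(t)`, `k` finite of characteristic two, ordered
by height, have finitely many rational points.
-/

namespace Pool.Agent.Results.MP_788af2_nt.RankZeroCharTwo

open Pool.Agent.Lib.MP_a3f657_nt.Two Pool.Agent.Lib.MP_788af2_nt.FF Filter

theorem result (k : Type) [Field k] [Fintype k] [CharP k 2] (ε : ℝ) (hε : 0 < ε) :
    ∀ᶠ d : ℕ in atTop, 1 / 6 - ε ≤ dens (k := k) (fun W => Finite W.toAffine.Point) d :=
  (trivial_ge (k := k) cellRed cellAn' ε hε).mono fun d hd =>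
    hd.trans (dens_mono finite_of_sel d)

end Pool.Agent.Results.MP_788af2_nt.RankZeroCharTwo
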