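import Pool.Agent.Lib.MP_788af2_nt.AS.Final

/-!
Let `k` be a finite field of characteristic two and `b` a nonconstant polynomial over `k`.
The curves `y ^ 2 + x y = x ^ 3 + a x ^ 2 + b` over `k(t)`, `a` running over the polynomials of
degree at most `N`, have average of `rank ^ m` at most `1 / 2 + ε` for large `N`.
-/

namespace Pool.Agent.Results.MP_788af2_nt.TwistAvgHalf

open Polynomial

theorem result (k : Type) [Field k] [Finite k] [CharP k 2] [DecidableEq (RatFunc k)] (b : k[X])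
    (hb : 0 < b.natDegree) (m : ℕ) (hm : 1 ≤ m) (ε : ℝ) (hε : 0 < ε) :
    ∃ N₀ : ℕ, ∀ N, N₀ ≤ N → ∃ A : Finset k[X], A.Nonempty ∧ (∀ a, a ∈ A ↔ a.natDegree ≤ N) ∧
      (∀ a ∈ A, AddGroup.FG (WeierstrassCurve.Affine.Point
        (⟨1, algebraMap k[X] (RatFunc k) a, 0, 0, algebraMap k[X] (RatFunc k) b⟩ :
          WeierstrassCurve (RatFunc k)).toAffine)) ∧
      ∑ a ∈ A, (Module.finrank ℤ (WeierstrassCurve.Affine.Point
        (⟨1, algebraMap k[X] (RatFunc k) a, 0, 0, algebraMap k[X] (RatFunc k) b⟩ :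
          WeierstrassCurve (RatFunc k)).toAffine) : ℝ) ^ m ≤ (1 / 2 + ε) * A.card :=
  Pool.Agent.Lib.MP_788af2_nt.AS.final hb m hm ε hε

end Pool.Agent.Results.MP_788af2_nt.TwistAvgHalf
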